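import Mathlib
import Pool.Agent.V7H36.BC.Defs

/-!
# The Lie algebras of the stabilizers of an action of a connected Lie group: definitions
-/

set_option autoImplicit false

open MulAction Filter Topology
open scoped Manifold

namespace Pool.Agent.V7H36.NG

open Pool.Agent.V7H36.BC

section

variable {G : Type} [Group G] {L : Type}

section

variable [AddCommGroup L] [Module ℝ L]

/-- The normalizer in `G` of a subset of the Lie algebra. -/
def normalizerOf (ad : G →* (L ≃ₗ[ℝ] L)) (S : Set L) : Subgroup G where
  carrier := {g | ∀ ξ, ad g ξ ∈ S ↔ ξ ∈ S}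
  one_mem' ξ := by
    rw [map_one]
    exact Iff.rfl
  mul_mem' {g h} hg hh ξ := by
    rw [map_mul]
    exact (hg _).trans (hh ξ)
  inv_mem' {g} hg ξ := by
    have h := hg (ad g⁻¹ ξ)
    have h1 : ad g (ad g⁻¹ ξ) = ξ := by
      have h2 : ad g * ad g⁻¹ = 1 := by rw [← map_mul, mul_inv_cancel, map_one]
      exact congrArg (fun φ : L ≃ₗ[ℝ] L => φ ξ) h2
    rw [h1] at h
    exact h.symm

/-- The Grassmannian of the subspaces of dimension `d` of the Lie algebra, on which `G` acts by the
adjoint representation. -/
def Gr (_ : G →* (L ≃ₗ[ℝ] L)) (d : ℕ) : Type := {W : Submodule ℝ L // Module.finrank ℝ W = d}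

/-- The action of `G` on the Grassmannian. -/
instance actGr (ad : G →* (L ≃ₗ[ℝ] L)) (d : ℕ) : MulAction G (Gr ad d) where
  smul g W := ⟨W.1.map (ad g).toLinearMap, by
    rw [LinearEquiv.finrank_map_eq]
    exact W.2⟩
  one_smul W := by
    refine Subtype.ext ?_
    change W.1.map (ad 1).toLinearMap = W.1
    rw [map_one]
    exact Submodule.map_id W.1
  mul_smul g h W := by
    refine Subtype.ext ?_
    change W.1.map (ad (g * h)).toLinearMap =
      (W.1.map (ad h).toLinearMap).map (ad g).toLinearMap
    rw [← Submodule.map_comp, map_mul]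
    rfl

theorem smulGr (ad : G →* (L ≃ₗ[ℝ] L)) (d : ℕ) (g : G) (W : Gr ad d) :
    (g • W).1 = W.1.map (ad g).toLinearMap := rfl

/-- The usual topology of the Grassmannian: it is generated by the sets of the subspaces which are
disjoint from a compact set. -/
instance topGr [TopologicalSpace L] (ad : G →* (L ≃ₗ[ℝ] L)) (d : ℕ) : TopologicalSpace (Gr ad d) :=
  TopologicalSpace.generateFrom
    {U | ∃ K : Set L, IsCompact K ∧ U = {W : Gr ad d | Disjoint (W.1 : Set L) K}}

/-- The Lie algebra of the subgroup `H` of `G`, `ex` the exponential map of `G`. -/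
def lieOf (ex : L → G) (H : Subgroup G) : Set L := {ξ | ∀ t : ℝ, ex (t • ξ) ∈ H}

/-- The dimension of the subgroup `H`. -/
noncomputable def dimOf (ex : L → G) (H : Subgroup G) : ℕ := Set.finrank ℝ (lieOf ex H)

end

variable [TopologicalSpace G]

/-- Known properties of the exponential map `ex` and of the adjoint representation `ad` of a Lie group
`G` with Lie algebra `L`. -/
structure IsLieGroup [IsTopologicalGroup G] [NormedAddCommGroup L] [NormedSpace ℝ L] (ex : L → G)
    (ad : G →* (L ≃ₗ[ℝ] L)) : Prop where
  /-- the exponential map is continuous, and a homeomorphism near zero -/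
  continuous : Continuous ex
  chart : ∃ e : OpenPartialHomeomorph L G, (0 : L) ∈ e.source ∧ ∀ ξ ∈ e.source, e ξ = ex ξ
  /-- it defines the one-parameter groups -/
  one_parameter : ∀ (ξ : L) (s t : ℝ), ex ((s + t) • ξ) = ex (s • ξ) * ex (t • ξ)
  /-- the adjoint representation -/
  conj : ∀ (g : G) (ξ : L), ex (ad g ξ) = g * ex ξ * g⁻¹
  continuous_ad : ∀ ξ : L, Continuous fun g : G => ad g ξ
  /-- the product formula of Lie -/
  product : ∀ ξ η : L, Tendsto (fun n : ℕ => (ex ((n : ℝ)⁻¹ • ξ) * ex ((n : ℝ)⁻¹ • η)) ^ n) atTop
    (𝓝 (ex (ξ + η)))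

/-- The closure of the subgroup of `G` generated by the elements `ex ξ` for `ξ` in `S`. If `S` is the Lie
algebra of a closed subgroup, then it is the identity component of this subgroup. -/
def expGroup [IsTopologicalGroup G] (ex : L → G) (S : Set L) : Subgroup G :=
  (Subgroup.closure (ex '' S)).topologicalClosure

/-- The quotient of the normalizer of `S` by `expGroup ex S` is an extension of an a-T-menable group by
an a-T-menable group. -/
def IsLarge [IsTopologicalGroup G] [AddCommGroup L] [Module ℝ L] (ex : L → G)
    (ad : G →* (L ≃ₗ[ℝ] L)) (S : Set L) : Prop :=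
  ∃ (N : Subgroup (normalizerOf ad S)) (_ : N.Normal),
    (∀ g : normalizerOf ad S, g ∈ N ↔ (g : G) ∈ expGroup ex S) ∧ IsGood (normalizerOf ad S ⧸ N)

/-- Known for all connected Lie groups `G`: if `H` is a closed subgroup of `G`, `H⁰` its identity
component, `N` the normalizer of its Lie algebra, and the dimension of `N / H⁰` is at most seven, then
`N / H⁰` is an extension of an a-T-menable group by an a-T-menable group. (The Levi factor of the
identity component of `N / H⁰` is locally isomorphic to a product of groups `SL_2(ℝ)`, `SU(2)` and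
`SL_2(ℂ)`, because all the other simple Lie groups have dimension at least eight; and the group of
components of `N` is amenable, because `N` is the inverse image in `G` of an algebraic subgroup of the
adjoint group.) -/
def SmallQuotients [IsTopologicalGroup G] [AddCommGroup L] [Module ℝ L] (ex : L → G)
    (ad : G →* (L ≃ₗ[ℝ] L)) : Prop :=
  ∀ H : Subgroup G, IsClosed (H : Set G) →
    dimOf ex (normalizerOf ad (lieOf ex H)) ≤ dimOf ex H + 7 → IsLarge ex ad (lieOf ex H)

/-- The group `G` is simple up to discrete subgroups: a closed subgroup whose Lie algebra is invariant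
under `G` is discrete or has the dimension of `G`. All closed subgroups which are not `G` have codimension
at least `c`, and the dimension of `G` is greater than `c + 7`. For instance this is the case for
`G = SL_n(ℝ)`, `n ≥ 4`, and `c = n - 1`. -/
structure IsSimpleOfCodim [AddCommGroup L] [Module ℝ L] (ex : L → G) (ad : G →* (L ≃ₗ[ℝ] L))
    (c : ℕ) : Prop where
  simple : ∀ H : Subgroup G, IsClosed (H : Set G) → normalizerOf ad (lieOf ex H) = ⊤ →
    dimOf ex H = 0 ∨ dimOf ex H = Module.finrank ℝ L
  codim : ∀ H : Subgroup G, IsClosed (H : Set G) → H ≠ ⊤ → dimOf ex H + c ≤ Module.finrank ℝ L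
  large : c + 7 < Module.finrank ℝ L

/-- The action of `G` on the manifold `X` is differentiable: the elements of `G` act by
differentiable maps, and for each point `x` and each `ξ` in the Lie algebra the curve `ex (t ξ) x` is
differentiable at `t = 0` with a derivative which depends linearly on `ξ`. This holds for all actions of
class `C¹`. -/
structure IsDifferentiableAction [AddCommGroup L] [Module ℝ L] (ex : L → G) (F X : Type)
    [NormedAddCommGroup F] [NormedSpace ℝ F] [TopologicalSpace X] [ChartedSpace F X]
    [MulAction G X] : Prop where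
  maps : ∀ g : G, MDifferentiable 𝓘(ℝ, F) 𝓘(ℝ, F) fun x : X => g • x
  curves : ∀ x : X, ∃ D : L →ₗ[ℝ] F, ∀ ξ : L,
    HasMFDerivAt 𝓘(ℝ, ℝ) 𝓘(ℝ, F) (fun t : ℝ => ex (t • ξ) • x) 0
      ((1 : ℝ →L[ℝ] ℝ).smulRight (D ξ))

/-- The closed subgroup `M` of `G` contains `K`, and `M / K` is compact. -/
def IsCompactMod (M K : Subgroup G) : Prop :=
  K ≤ M ∧ ∃ C : Set G, IsCompact C ∧ ∀ m ∈ M, ∃ c ∈ C, ∃ k ∈ K, m = c * k

/-- The subset `O` of the `G`-space `V` is almost an orbit: there is a closed subgroup `K` of `G` with
abelian quotient which contains the stabilizers of the points of `O`, such that for all closed subgroups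
`M` of `G` with `K ≤ M`, `M / K` compact, there is a continuous map from `O` to a Euclidean space whose
fibres are the orbits of `M` in `O`. For instance (`K = G`) an orbit of `G`. If `G` is a connected Lie
group and `O` an orbit of the identity component `H` of the Zariski closure of the image of `G` in the
general linear group, `O = H / N`, one can take for `K` the inverse image of `[H, H] N` in `G`, because
`[H, H]` is contained in the image of `G`: the orbits of `M` in `O` are the fibres of the map to
`H / ([H, H] N M)`, a connected abelian Lie group. -/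
def IsAlmostOrbit (G : Type) [Group G] [TopologicalSpace G] {V : Type} [TopologicalSpace V]
    [MulAction G V] (O : Set V) : Prop :=
  Invariant (⊤ : Subgroup G) O ∧ ∃ K : Subgroup G, IsClosed (K : Set G) ∧
    (∀ a b : G, a * b * a⁻¹ * b⁻¹ ∈ K) ∧ (∀ v ∈ O, stabilizer G v ≤ K) ∧
    ∀ M : Subgroup G, IsClosed (M : Set G) → IsCompactMod M K →
      ∃ (N : ℕ) (q : V → Fin N → ℝ), ContinuousOn q O ∧ (∀ m ∈ M, ∀ v ∈ O, q (m • v) = q v) ∧
        ∀ v ∈ O, ∀ w ∈ O, q w = q v → ∃ m ∈ M, w = m • v

/-- Known for the Grassmannian `V` of the subspaces of dimension `d` of the Lie algebra of a connected Lie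
group `G`; `Z` is the set of the Zariski closed subsets of `V`. -/
structure IsStratified (G : Type) [Group G] [TopologicalSpace G] {V : Type} [MulAction G V]
    [TopologicalSpace V] (Z : Set (Set V)) : Prop where
  univ : Set.univ ∈ Z
  closed : ∀ W ∈ Z, IsClosed W
  /-- there are no infinite descending chains of Zariski closed subsets -/
  noetherian : ¬ ∃ W : ℕ → Set V, (∀ n, W n ∈ Z) ∧ ∀ n, W (n + 1) ⊂ W n
  /-- Rosenlicht, Borel, Harish-Chandra: a Zariski closed invariant set `W` which is not empty has a
  Zariski closed invariant proper subset `W'` such that there is a continuous invariant map from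
  `W \ W'` to a Euclidean space each of whose fibres is a finite union of open disjoint sets which are
  almost orbits (orbits of the Zariski closure of the adjoint group) -/
  quotient : ∀ W ∈ Z, Invariant (⊤ : Subgroup G) W → W.Nonempty →
    ∃ W' ∈ Z, Invariant (⊤ : Subgroup G) W' ∧ W' ⊂ W ∧
      ∃ (N : ℕ) (q : V → Fin N → ℝ), ContinuousOn q (W \ W') ∧ InvariantOn G q (W \ W') ∧
        ∀ y, ∃ F : Finset (Set V), (W \ W') ∩ q ⁻¹' {y} = ⋃ O ∈ F, O ∧
          (∀ O ∈ F, IsOpenIn O ((W \ W') ∩ q ⁻¹' {y}) ∧ IsAlmostOrbit G O) ∧
          ∀ O ∈ F, ∀ O' ∈ F, O ≠ O' → Disjoint O O'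

/-- Known properties of the assembly map of Baum and Connes with commutative coefficients, for a
connected Lie group `G`, a locally compact `G`-space `X` and the closed subgroups `H` of `G`:
`BC H S` says that for the locally closed `H`-invariant subset `S` of `X` the assembly map
`KK_H(E H, S) → K_*(C_0(S) ⋊_r H)` is an isomorphism. -/
structure IsAssembly {X : Type} [MulAction G X] [TopologicalSpace X] (V : Type) [MulAction G V]
    [TopologicalSpace V] (BC : Subgroup G → Set X → Prop) : Prop where
  /-- both groups are zero -/
  empty : ∀ H, BC H ∅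
  /-- the exact sequences of the open subset `A` of `A ∪ B` (`H` is exact) and the five lemma: the
  conjecture is true for all three spaces `A`, `B`, `A ∪ B` if it is for `B` and one of the others -/
  excision : ∀ H : Subgroup G, IsClosed (H : Set G) → ∀ A B : Set X, Invariant H A →
    Invariant H B → IsLocallyClosed A → IsLocallyClosed B → IsLocallyClosed (A ∪ B) →
    Disjoint A B → IsOpenIn A (A ∪ B) → BC H B → (BC H A ↔ BC H (A ∪ B))
  /-- Chabert, Echterhoff, Nest: if `q` is an invariant continuous map to a Euclidean space and the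
  assembly map is an isomorphism for all fibres, then this is so for the whole space (`H` is exact and
  has a `γ`-element) -/
  fibres : ∀ H : Subgroup G, IsClosed (H : Set G) → ∀ A : Set X, Invariant H A →
    IsLocallyClosed A → ∀ (N : ℕ) (q : X → Fin N → ℝ), ContinuousOn q A →
      (∀ h ∈ H, ∀ x ∈ A, q (h • x) = q x) → (∀ y, BC H (A ∩ q ⁻¹' {y})) → BC H A
  /-- Green, Chabert, Echterhoff: if `f` is an `H`-equivariant map from `A` to the locally closed orbit
  `H v`, which is isomorphic to `H / H_v`, then `A` is induced from the `H_v`-space `f⁻¹ (v)`, and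
  the assembly maps for the `H`-space `A` and for the `H_v`-space `f⁻¹ (v)` are the same -/
  induced : ∀ H : Subgroup G, IsClosed (H : Set G) → ∀ A : Set X, Invariant H A →
    IsLocallyClosed A → ∀ f : X → V, ContinuousOn f A → (∀ h ∈ H, ∀ x ∈ A, f (h • x) = h • f x) →
      ∀ v : V, (∀ x ∈ A, ∃ h ∈ H, f x = h • v) → IsLocallyClosed {w | ∃ h ∈ H, w = h • v} →
        BC (stabilizer G v ⊓ H) (A ∩ f ⁻¹' {v}) → BC H A
  /-- Chabert, Echterhoff, Oyono-Oyono, Kasparov: if `H / K` is abelian, and the assembly map for `M`
  and `S` is an isomorphism for all `K ≤ M ≤ H` with `M / K` compact, then also for `H` and `S` -/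
  abelian : ∀ H K : Subgroup G, IsClosed (H : Set G) → IsClosed (K : Set G) → K ≤ H →
    (∀ a ∈ H, ∀ b ∈ H, a * b * a⁻¹ * b⁻¹ ∈ K) → ∀ S : Set X, Invariant H S →
      IsLocallyClosed S → (∀ M : Subgroup G, IsClosed (M : Set G) → M ≤ H → IsCompactMod M K →
        BC M S) → BC H S
  /-- Chabert, Echterhoff, Oyono-Oyono, Higson, Kasparov: the same if `H / K` is an extension of an
  a-T-menable group by an a-T-menable group -/
  extension : ∀ H K : Subgroup G, IsClosed (H : Set G) → IsClosed (K : Set G) → K ≤ H →
    ∀ (N : Subgroup H) (_ : N.Normal), (∀ g : H, g ∈ N ↔ (g : G) ∈ K) → IsGood (H ⧸ N) →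
      ∀ S : Set X, Invariant H S → IsLocallyClosed S →
        (∀ M : Subgroup G, IsClosed (M : Set G) → M ≤ H → IsCompactMod M K → BC M S) → BC H S
  /-- Chabert, Echterhoff, Nest: the conjecture with trivial coefficients holds for the groups with
  finitely many connected components; so it holds for the `M`-spaces `S` on which a connected normal
  subgroup `K` with compact quotient `M / K` acts trivially (induction and the exact sequences for the
  strata of the action of the compact Lie group `M / K`) -/
  compact : ∀ M K : Subgroup G, IsClosed (M : Set G) → IsClosed (K : Set G) → IsCompactMod M K →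
    IsConnected (K : Set G) → (∀ m ∈ M, ∀ k ∈ K, m * k * m⁻¹ ∈ K) →
      ∀ S : Set X, Invariant M S → IsLocallyClosed S → (∀ k ∈ K, ∀ x ∈ S, k • x = x) → BC M S

end

end Pool.Agent.V7H36.NG
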