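import Mathlib
import Pool.Agent.V7H36.NG.Defs

/-!
# The Lie algebras of the stabilizers of an action of a connected Lie group
-/

set_option autoImplicit false

open Topology Filter MulAction
open scoped Manifold

namespace Pool.Agent.V7H36.NG

open Pool.Agent.V7H36.BC

section

variable {G : Type} [Group G] [TopologicalSpace G] [IsTopologicalGroup G] {L : Type}
  [NormedAddCommGroup L] [NormedSpace ℝ L] [FiniteDimensional ℝ L] {ex : L → G}
  {ad : G →* (L ≃ₗ[ℝ] L)}

omit [FiniteDimensional ℝ L] in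
theorem ex_zero (hL : IsLieGroup ex ad) : ex 0 = 1 := by
  have h := hL.one_parameter 0 0 0
  simp only [smul_zero] at h
  exact (mul_eq_left.1 h.symm)

/-- the Lie algebra of a closed subgroup as a subspace -/
def lieH (hL : IsLieGroup ex ad) (H : Subgroup G) (hH : IsClosed (H : Set G)) :
    Submodule ℝ L where
  carrier := lieOf ex H
  add_mem' {a b} ha hb := by
    intro t
    rw [smul_add]
    refine hH.mem_of_tendsto (hL.product (t • a) (t • b)) (Eventually.of_forall fun n => ?_)
    refine pow_mem (mul_mem ?_ ?_) n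
    · rw [smul_smul]
      exact ha _
    · rw [smul_smul]
      exact hb _
  zero_mem' t := by
    rw [smul_zero, ex_zero hL]
    exact one_mem H
  smul_mem' c a ha t := by
    rw [smul_smul]
    exact ha (t * c)

theorem dimOf_eq (hL : IsLieGroup ex ad) (H : Subgroup G) (hH : IsClosed (H : Set G)) :
    dimOf ex H = Module.finrank ℝ (lieH hL H hH) := by
  have h1 : Submodule.span ℝ (lieOf ex H) = lieH hL H hH := Submodule.span_eq (lieH hL H hH)
  rw [dimOf, Set.finrank, h1]

omit [IsTopologicalGroup G] [TopologicalSpace G] in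
theorem dimOf_le (H : Subgroup G) : dimOf ex H ≤ Module.finrank ℝ L := Submodule.finrank_le _

variable {X : Type} [TopologicalSpace X] [T2Space X] [MulAction G X] [ContinuousSMul G X]

omit [IsTopologicalGroup G] in
theorem isClosed_stab (x : X) : IsClosed (stabilizer G x : Set G) := by
  have h1 : (stabilizer G x : Set G) = (fun g : G => g • x) ⁻¹' {x} := by
    ext g
    simp [mem_stabilizer_iff]
  rw [h1]
  exact isClosed_singleton.preimage (continuous_id.smul continuous_const)

/-- the Lie algebra of the stabilizer -/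
def lie (hL : IsLieGroup ex ad) (x : X) : Submodule ℝ L :=
  lieH hL (stabilizer G x) (isClosed_stab x)

theorem coe_lie (hL : IsLieGroup ex ad) (x : X) :
    (lie hL x : Set L) = lieOf ex (stabilizer G x) := rfl

theorem dim_stab (hL : IsLieGroup ex ad) (x : X) :
    dimOf ex (stabilizer G x) = Module.finrank ℝ (lie hL x) := dimOf_eq hL _ _

theorem isClosed_lie (hL : IsLieGroup ex ad) :
    IsClosed {p : L × X | p.1 ∈ lieOf ex (stabilizer G p.2)} := by
  have h1 : {p : L × X | p.1 ∈ lieOf ex (stabilizer G p.2)} =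
      ⋂ t : ℝ, {p : L × X | ex (t • p.1) • p.2 = p.2} := by
    ext p
    rw [Set.mem_iInter]
    rfl
  rw [h1]
  refine isClosed_iInter fun t => isClosed_eq ?_ continuous_snd
  exact (hL.continuous.comp (continuous_fst.const_smul t)).smul continuous_snd

omit [T2Space X] [TopologicalSpace X] [ContinuousSMul G X] [FiniteDimensional ℝ L] in
theorem conj_lie' (hL : IsLieGroup ex ad) (g : G) (x : X) {ξ : L}
    (h : ξ ∈ lieOf ex (stabilizer G x)) : ad g ξ ∈ lieOf ex (stabilizer G (g • x)) := by
  intro t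
  have h1 : ex (t • ξ) • x = x := h t
  rw [← map_smul, hL.conj, mem_stabilizer_iff, mul_smul, mul_smul, inv_smul_smul, h1]

omit [T2Space X] [TopologicalSpace X] [ContinuousSMul G X] [FiniteDimensional ℝ L]
  [TopologicalSpace G] [IsTopologicalGroup G] in
theorem ad_inv (g : G) (ξ : L) : ad g (ad g⁻¹ ξ) = ξ := by
  have h2 : ad g * ad g⁻¹ = 1 := by rw [← map_mul, mul_inv_cancel, map_one]
  exact congrArg (fun φ : L ≃ₗ[ℝ] L => φ ξ) h2

omit [T2Space X] [TopologicalSpace X] [ContinuousSMul G X] [FiniteDimensional ℝ L]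
  [TopologicalSpace G] [IsTopologicalGroup G] in
theorem ad_inv' (g : G) (ξ : L) : ad g⁻¹ (ad g ξ) = ξ := by
  have h := ad_inv (ad := ad) g⁻¹ ξ
  rwa [inv_inv] at h

omit [T2Space X] [TopologicalSpace X] [ContinuousSMul G X] [FiniteDimensional ℝ L] in
theorem conj_lie (hL : IsLieGroup ex ad) (g : G) (x : X) (ξ : L) :
    ad g ξ ∈ lieOf ex (stabilizer G (g • x)) ↔ ξ ∈ lieOf ex (stabilizer G x) := by
  refine ⟨fun h => ?_, conj_lie' hL g x⟩
  have h1 := conj_lie' hL g⁻¹ (g • x) h
  rwa [inv_smul_smul, ad_inv'] at h1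

theorem map_lie (hL : IsLieGroup ex ad) (g : G) (x : X) :
    (lie hL x).map (ad g).toLinearMap = lie hL (g • x) := by
  ext ξ
  rw [Submodule.mem_map]
  constructor
  · rintro ⟨η, hη, rfl⟩
    exact conj_lie' hL g x hη
  · intro h
    refine ⟨ad g⁻¹ ξ, ?_, ad_inv g ξ⟩
    have := conj_lie' hL g⁻¹ (g • x) h
    rw [inv_smul_smul] at this
    exact this

theorem finrank_lie_smul (hL : IsLieGroup ex ad) (g : G) (x : X) :
    Module.finrank ℝ (lie hL (g • x)) = Module.finrank ℝ (lie hL x) := by
  rw [← map_lie, LinearEquiv.finrank_map_eq]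

/-! ### Semicontinuity -/

theorem isOpen_disjoint (hL : IsLieGroup ex ad) {K : Set L} (hK : IsCompact K) :
    IsOpen {x : X | Disjoint (lieOf ex (stabilizer G x)) K} := by
  rw [isOpen_iff_mem_nhds]
  intro x hx
  obtain ⟨u, v, -, hv, hu', hv', huv⟩ := generalized_tube_lemma hK (isCompact_singleton (x := x))
    (isClosed_lie (X := X) hL).isOpen_compl (by
      rintro ⟨ξ, y⟩ ⟨h1, h2⟩ h3
      have h4 : y = x := h2
      subst h4
      exact Set.disjoint_left.1 hx h3 h1)
  filter_upwards [hv.mem_nhds (hv' rfl)] with y hy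
  refine Set.disjoint_left.2 fun ξ h1 h2 => ?_
  exact huv (Set.mk_mem_prod (hu' h2) hy) h1

theorem isOpen_finrank_lt (hL : IsLieGroup ex ad) (d : ℕ) :
    IsOpen {x : X | Module.finrank ℝ (lie hL x) < d} := by
  have hprop : ProperSpace L := FiniteDimensional.proper ℝ L
  rw [isOpen_iff_mem_nhds]
  intro x hx
  obtain ⟨C, hC⟩ := (lie hL x).exists_isCompl
  have hK : IsCompact ((C : Set L) ∩ Metric.sphere 0 1) :=
    (isCompact_sphere (0 : L) 1).inter_left C.closed_of_finiteDimensional
  have hdis : Disjoint (lieOf ex (stabilizer G x)) ((C : Set L) ∩ Metric.sphere 0 1) := by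
    rw [Set.disjoint_left]
    rintro ξ h1 ⟨h2, h3⟩
    have h4 : ξ = 0 := Submodule.disjoint_def.1 hC.disjoint ξ h1 h2
    rw [h4] at h3
    simp at h3
  filter_upwards [(isOpen_disjoint hL hK).mem_nhds hdis] with y hy
  have h1 : Disjoint (lie hL y) C := by
    rw [Submodule.disjoint_def]
    intro ξ h2 h3
    by_contra h4
    have h5 : ‖ξ‖⁻¹ • ξ ∈ lieOf ex (stabilizer G y) := (lie hL y).smul_mem _ h2
    refine Set.disjoint_left.1 hy h5 ⟨C.smul_mem _ h3, ?_⟩
    rw [mem_sphere_zero_iff_norm, norm_smul, norm_inv, norm_norm]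
    exact inv_mul_cancel₀ (norm_ne_zero_iff.2 h4)
  have h2 := Submodule.finrank_add_finrank_le_of_disjoint h1
  have h3 := Submodule.finrank_add_eq_of_isCompl hC
  have h4 : Module.finrank ℝ (lie hL x) < d := hx
  change Module.finrank ℝ (lie hL y) < d
  omega

/-! ### The stabilizers of the points of the Grassmannian -/

omit [TopologicalSpace G] [FiniteDimensional ℝ L] [IsTopologicalGroup G] in
theorem mem_stab_iff {d : ℕ} (v : Gr ad d) (g : G) :
    g ∈ stabilizer G v ↔ g ∈ normalizerOf ad (v.1 : Set L) := by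
  rw [mem_stabilizer_iff]
  constructor
  · intro h ξ
    have h1 : v.1.map (ad g).toLinearMap = v.1 := congrArg Subtype.val h
    constructor
    · intro h2
      have h3 : ad g ξ ∈ v.1.map (ad g).toLinearMap := by rw [h1]; exact h2
      obtain ⟨η, hη, h4⟩ := h3
      rwa [← (ad g).injective h4]
    · intro h2
      have h3 : ad g ξ ∈ v.1.map (ad g).toLinearMap := ⟨ξ, h2, rfl⟩
      rw [h1] at h3
      exact h3
  · intro h
    refine Subtype.ext ?_
    change v.1.map (ad g).toLinearMap = v.1
    ext ξ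
    rw [Submodule.mem_map]
    constructor
    · rintro ⟨η, hη, rfl⟩
      exact (h η).2 hη
    · intro h1
      refine ⟨ad g⁻¹ ξ, (h _).1 ?_, ad_inv g ξ⟩
      rw [ad_inv]
      exact h1

omit [TopologicalSpace G] [FiniteDimensional ℝ L] [IsTopologicalGroup G] in
theorem stab_eq {d : ℕ} (v : Gr ad d) : stabilizer G v = normalizerOf ad (v.1 : Set L) :=
  Subgroup.ext (mem_stab_iff v)

theorem isClosed_normalizerOf (hL : IsLieGroup ex ad) (W : Submodule ℝ L) :
    IsClosed (normalizerOf ad (W : Set L) : Set G) := by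
  have h1 : (normalizerOf ad (W : Set L) : Set G) =
      (⋂ ξ : W, {g : G | ad g ξ ∈ (W : Set L)}) ∩ ⋂ ξ : W, {g : G | ad g⁻¹ ξ ∈ (W : Set L)} := by
    ext g
    simp only [Set.mem_inter_iff, Set.mem_iInter]
    constructor
    · intro h
      refine ⟨fun ξ => (h ξ).2 ξ.2, fun ξ => (h _).1 ?_⟩
      rw [ad_inv]
      exact ξ.2
    · rintro ⟨h2, h3⟩ ξ
      refine ⟨fun h4 => ?_, fun h4 => h2 ⟨ξ, h4⟩⟩
      have h5 : ad g⁻¹ (ad g ξ) ∈ (W : Set L) := h3 ⟨_, h4⟩
      rwa [ad_inv'] at h5
  rw [h1]
  have hW : IsClosed (W : Set L) := W.closed_of_finiteDimensional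
  refine (isClosed_iInter fun ξ => hW.preimage ?_).inter (isClosed_iInter fun ξ => hW.preimage ?_)
  · exact hL.continuous_ad ξ
  · exact (hL.continuous_ad ξ).comp continuous_inv

/-! ### The identity component -/

theorem expGroup_le_stab (x : X) : expGroup ex (lieOf ex (stabilizer G x)) ≤ stabilizer G x := by
  refine Subgroup.topologicalClosure_minimal _ ?_ (isClosed_stab x)
  rw [Subgroup.closure_le]
  rintro _ ⟨ξ, hξ, rfl⟩
  have h1 := hξ 1
  rw [one_smul] at h1
  exact h1

omit [T2Space X] [TopologicalSpace X] [ContinuousSMul G X] [FiniteDimensional ℝ L] in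
theorem stab_le_normalizerOf (hL : IsLieGroup ex ad) (x : X) :
    stabilizer G x ≤ normalizerOf ad (lieOf ex (stabilizer G x)) := by
  intro g hg ξ
  have h1 := conj_lie hL g x ξ
  rw [mem_stabilizer_iff.1 hg] at h1
  exact h1

omit [FiniteDimensional ℝ L] in
theorem conj_expGroup (hL : IsLieGroup ex ad) {S : Set L} {m : G} (hm : m ∈ normalizerOf ad S) :
    ∀ l ∈ expGroup ex S, m * l * m⁻¹ ∈ expGroup ex S := by
  have h1 : expGroup ex S ≤ (expGroup ex S).comap (MulAut.conj m).toMonoidHom := by
    refine Subgroup.topologicalClosure_minimal _ ?_ ?_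
    · rw [Subgroup.closure_le]
      rintro _ ⟨ξ, hξ, rfl⟩
      refine Subgroup.le_topologicalClosure _ (Subgroup.subset_closure ?_)
      exact ⟨ad m ξ, (hm ξ).2 hξ, hL.conj m ξ⟩
    · have h2 : IsClosed (expGroup ex S : Set G) := Subgroup.isClosed_topologicalClosure _
      refine h2.preimage (f := fun g : G => m * g * m⁻¹) ?_
      fun_prop
  intro l hl
  exact h1 hl

theorem connected_expGroup (hL : IsLieGroup ex ad) (x : X) :
    IsConnected (expGroup ex (lieOf ex (stabilizer G x)) : Set G) := by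
  refine IsConnected.closure ⟨⟨1, one_mem _⟩, ?_⟩
  set H := Subgroup.closure (ex '' (lieOf ex (stabilizer G x))) with hH
  have hpath : ∀ g : G, g ∈ ex '' (lieOf ex (stabilizer G x)) →
      ∃ c : ℝ → G, Continuous c ∧ c 0 = 1 ∧ c 1 = g ∧ ∀ t, c t ∈ H := by
    rintro _ ⟨ξ, hξ, rfl⟩
    refine ⟨fun t => ex (t • ξ), hL.continuous.comp (continuous_id.smul continuous_const), ?_, ?_,
      fun t => Subgroup.subset_closure ⟨t • ξ, (lie hL x).smul_mem t hξ, rfl⟩⟩
    · change ex ((0 : ℝ) • ξ) = 1
      rw [zero_smul, ex_zero hL]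
    · change ex ((1 : ℝ) • ξ) = ex ξ
      rw [one_smul]
  refine isPreconnected_of_forall 1 fun g hg => ?_
  have key : g ∈ connectedComponentIn (H : Set G) 1 := by
    induction hg using Subgroup.closure_induction with
    | mem g hg =>
      obtain ⟨c, hc, h0, h1, hcH⟩ := hpath g hg
      have h2 : IsPreconnected (Set.range c) := isPreconnected_range hc
      exact h2.subset_connectedComponentIn ⟨0, h0⟩ (by rintro _ ⟨t, rfl⟩; exact hcH t) ⟨1, h1⟩
    | one => exact mem_connectedComponentIn (one_mem H)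
    | mul a b ha hb iha ihb =>
      have h2 : IsPreconnected ((fun z : G => a * z) '' connectedComponentIn (H : Set G) 1) :=
        isPreconnected_connectedComponentIn.image _ (by fun_prop)
      have h3 : (fun z : G => a * z) '' connectedComponentIn (H : Set G) 1 ⊆
          connectedComponentIn (H : Set G) a := by
        refine h2.subset_connectedComponentIn ⟨1, mem_connectedComponentIn (one_mem H), mul_one a⟩ ?_
        rintro _ ⟨z, hz, rfl⟩
        exact mul_mem ha (connectedComponentIn_subset _ _ hz)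
      rw [connectedComponentIn_eq iha]
      exact h3 ⟨b, ihb, rfl⟩
    | inv a ha iha =>
      have h2 : IsPreconnected ((fun z : G => a⁻¹ * z) '' connectedComponentIn (H : Set G) 1) :=
        isPreconnected_connectedComponentIn.image _ (by fun_prop)
      refine h2.subset_connectedComponentIn ⟨a, iha, inv_mul_cancel a⟩ ?_
        ⟨1, mem_connectedComponentIn (one_mem H), mul_one _⟩
      rintro _ ⟨z, hz, rfl⟩
      exact mul_mem (inv_mem ha) (connectedComponentIn_subset _ _ hz)
  exact ⟨connectedComponentIn (H : Set G) 1, connectedComponentIn_subset _ _,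
    mem_connectedComponentIn (one_mem H), key, isPreconnected_connectedComponentIn⟩

/-! ### Points with a given Lie algebra -/

theorem isLocallyClosed_lie_eq (hL : IsLieGroup ex ad) {A : Set X} (hA' : IsLocallyClosed A)
    (W : Submodule ℝ L) : IsLocallyClosed {x | x ∈ A ∧ lieOf ex (stabilizer G x) = W} := by
  have e1 : {x | x ∈ A ∧ lieOf ex (stabilizer G x) = (W : Set L)} =
      (A ∩ {x | Module.finrank ℝ (lie hL x) < Module.finrank ℝ W + 1}) ∩
        ⋂ ξ : W, {x : X | (ξ : L) ∈ lieOf ex (stabilizer G x)} := by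
    ext x
    constructor
    · rintro ⟨h1, h2⟩
      have h3 : lie hL x = W := SetLike.coe_injective h2
      refine ⟨⟨h1, ?_⟩, ?_⟩
      · change Module.finrank ℝ (lie hL x) < _
        rw [h3]
        omega
      · rw [Set.mem_iInter]
        intro ξ
        change (ξ : L) ∈ lieOf ex (stabilizer G x)
        rw [h2]
        exact ξ.2
    · rintro ⟨⟨h1, h2⟩, h3⟩
      refine ⟨h1, ?_⟩
      rw [Set.mem_iInter] at h3
      have h4 : W ≤ lie hL x := fun ξ hξ => h3 ⟨ξ, hξ⟩
      have h5 : Module.finrank ℝ (lie hL x) < Module.finrank ℝ W + 1 := h2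
      rw [Submodule.eq_of_le_of_finrank_le h4 (by omega)]
      rfl
  rw [e1]
  refine (hA'.inter (isOpen_finrank_lt hL _).isLocallyClosed).inter
    (isClosed_iInter fun ξ => ?_).isLocallyClosed
  exact (isClosed_lie (X := X) hL).preimage (f := fun x : X => ((ξ : L), x)) (by fun_prop)

omit [TopologicalSpace X] [T2Space X] [ContinuousSMul G X] [FiniteDimensional ℝ L] in
theorem invariant_lie_eq (hL : IsLieGroup ex ad) {A : Set X}
    (hA : Invariant (⊤ : Subgroup G) A) (W : Set L) :
    Invariant (normalizerOf ad W) {x | x ∈ A ∧ lieOf ex (stabilizer G x) = W} := by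
  rintro g hg x ⟨hx, hx'⟩
  refine ⟨hA g trivial x hx, ?_⟩
  ext ξ
  have h1 := conj_lie hL g x (ad g⁻¹ ξ)
  rw [ad_inv, hx'] at h1
  rw [h1]
  have h2 := hg (ad g⁻¹ ξ)
  rw [ad_inv] at h2
  exact h2.symm

end

end Pool.Agent.V7H36.NG
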