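import Mathlib
import Pool.Agent.V7H36.BC.Main
import Pool.Agent.V7H36.NG.Lie

/-!
# The local-global principle for actions with almost orbits
-/

set_option autoImplicit false

open Topology Filter MulAction

namespace Pool.Agent.V7H36.NG

open Pool.Agent.V7H36.BC (Invariant IsOpenIn InvariantOn EquivariantOn locallyClosed_preimage
  locallyClosed_fibre openIn_preimage locallyClosed_of_openIn invariant_iff invariant_preimage)

section

variable {G X V : Type} [Group G] [MulAction G X] [MulAction G V] [TopologicalSpace X]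
  [TopologicalSpace V] [TopologicalSpace G] {BC : Subgroup G → Set X → Prop}

theorem closed_top : IsClosed ((⊤ : Subgroup G) : Set G) := isClosed_univ

/-- The part over an almost orbit. -/
theorem almost_orbit_case (h : IsAssembly V BC) {A : Set X} (hA : Invariant (⊤ : Subgroup G) A)
    (hA' : IsLocallyClosed A) {f : X → V} (hf : ContinuousOn f A) (hf' : EquivariantOn G f A)
    {O : Set V} (hO : IsLocallyClosed O) (hO' : IsAlmostOrbit G O)
    (hBC : ∀ v, BC (stabilizer G v) (A ∩ f ⁻¹' {v})) : BC ⊤ (A ∩ f ⁻¹' O) := by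
  obtain ⟨hOi, K, hK, hKa, hKs, hKM⟩ := hO'
  have hiO : Invariant (⊤ : Subgroup G) (A ∩ f ⁻¹' O) := invariant_preimage hA hf' hOi
  have hlO : IsLocallyClosed (A ∩ f ⁻¹' O) := locallyClosed_preimage hA' hf hO
  refine h.abelian ⊤ K closed_top hK le_top (fun a _ b _ => hKa a b) _ hiO hlO fun M hM _ hMK => ?_
  obtain ⟨N, q, hq, hqi, hqo⟩ := hKM M hM hMK
  have hiM : Invariant M (A ∩ f ⁻¹' O) := fun m _ x hx => hiO m trivial x hx
  refine h.fibres M hM _ hiM hlO N (fun x => q (f x)) ?_ ?_ fun y => ?_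
  · exact hq.comp (hf.mono Set.inter_subset_left) fun x hx => hx.2
  · rintro m hm x ⟨hx, hx'⟩
    change q (f (m • x)) = q (f x)
    rw [hf' m x hx]
    exact hqi m hm _ hx'
  · have e1 : A ∩ f ⁻¹' O ∩ (fun x => q (f x)) ⁻¹' {y} = A ∩ f ⁻¹' (O ∩ q ⁻¹' {y}) := by
      rw [Set.preimage_inter, Set.inter_assoc]
      rfl
    rw [e1]
    rcases Set.eq_empty_or_nonempty (O ∩ q ⁻¹' {y}) with he | ⟨v, hv, hv'⟩
    · rw [he, Set.preimage_empty, Set.inter_empty]
      exact h.empty _
    have hvy : q v = y := hv'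
    have e2 : O ∩ q ⁻¹' {y} = {w | ∃ m ∈ M, w = m • v} := by
      ext w
      constructor
      · rintro ⟨hw, hw'⟩
        have hwy : q w = y := hw'
        exact hqo v hv w hw (by rw [hwy, hvy])
      · rintro ⟨m, hm, rfl⟩
        refine ⟨hOi m trivial v hv, ?_⟩
        change q (m • v) = y
        rw [hqi m hm v hv, hvy]
    have hlf : IsLocallyClosed (O ∩ q ⁻¹' {y}) := locallyClosed_fibre hO hq y
    refine h.induced M hM _ ?_ (locallyClosed_preimage hA' hf hlf) f
      (hf.mono Set.inter_subset_left) (fun m _ x hx => hf' m x hx.1) v ?_ (by rw [← e2]; exact hlf) ?_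
    · rintro m hm x ⟨hx, hx1, hx2⟩
      refine ⟨hA m trivial x hx, ?_⟩
      rw [Set.mem_preimage, hf' m x hx]
      refine ⟨hOi m trivial _ hx1, ?_⟩
      change q (m • f x) = y
      rw [hqi m hm _ hx1]
      exact hx2
    · rintro x ⟨-, hx⟩
      rw [Set.mem_preimage, e2] at hx
      exact hx
    · have hle : stabilizer G v ≤ M := (hKs v hv).trans hMK.1
      rw [inf_eq_left.2 hle]
      have e3 : A ∩ f ⁻¹' (O ∩ q ⁻¹' {y}) ∩ f ⁻¹' {v} = A ∩ f ⁻¹' {v} := by
        ext x
        simp only [Set.mem_inter_iff, Set.mem_preimage, Set.mem_singleton_iff]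
        constructor
        · rintro ⟨⟨h1, -⟩, h2⟩
          exact ⟨h1, h2⟩
        · rintro ⟨h1, h2⟩
          exact ⟨⟨h1, by rw [h2]; exact ⟨hv, hvy⟩⟩, h2⟩
      rw [e3]
      exact hBC v

theorem invariant_biUnion (F : Finset (Set V))
    (hF : ∀ O ∈ F, Invariant (⊤ : Subgroup G) O) : Invariant (⊤ : Subgroup G) (⋃ O ∈ F, O) := by
  rintro g - x hx
  simp only [Set.mem_iUnion] at hx ⊢
  obtain ⟨O, hO, hx⟩ := hx
  exact ⟨O, hO, hF O hO g trivial x hx⟩

/-- The part over finitely many open almost orbits of a locally closed set. -/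
theorem almost_orbits_case (h : IsAssembly V BC) {A : Set X} (hA : Invariant (⊤ : Subgroup G) A)
    (hA' : IsLocallyClosed A) {f : X → V} (hf : ContinuousOn f A) (hf' : EquivariantOn G f A)
    (hBC : ∀ v, BC (stabilizer G v) (A ∩ f ⁻¹' {v})) {Φ : Set V} (hΦ : IsLocallyClosed Φ)
    (F : Finset (Set V)) (hF : ∀ O ∈ F, IsOpenIn O Φ ∧ IsAlmostOrbit G O)
    (hd : ∀ O ∈ F, ∀ O' ∈ F, O ≠ O' → Disjoint O O') :
    IsOpenIn (⋃ O ∈ F, O) Φ ∧ BC ⊤ (A ∩ f ⁻¹' (⋃ O ∈ F, O)) := by
  classical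
  induction F using Finset.induction_on with
  | empty =>
    refine ⟨⟨∅, isOpen_empty, by simp⟩, ?_⟩
    have h1 : A ∩ f ⁻¹' (⋃ O ∈ (∅ : Finset (Set V)), O) = ∅ := by simp
    rw [h1]
    exact h.empty _
  | insert O F hO ih =>
    obtain ⟨ih1, ih2⟩ := ih (fun w hw => hF w (Finset.mem_insert_of_mem hw))
      fun w hw w' hw' => hd w (Finset.mem_insert_of_mem hw) w' (Finset.mem_insert_of_mem hw')
    obtain ⟨hvo, hva⟩ := hF O (Finset.mem_insert_self _ _)
    have hvl := locallyClosed_of_openIn hvo hΦ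
    have hU : (⋃ w ∈ insert O F, w) = O ∪ ⋃ w ∈ F, w := by
      rw [Finset.set_biUnion_insert]
    have hopen : IsOpenIn (⋃ w ∈ insert O F, w) Φ := by
      obtain ⟨O1, hO1, e1⟩ := hvo
      obtain ⟨O2, hO2, e2⟩ := ih1
      refine ⟨O1 ∪ O2, hO1.union hO2, ?_⟩
      rw [hU, Set.inter_union_distrib_left, ← e1, ← e2]
    refine ⟨hopen, ?_⟩
    have hdis : Disjoint O (⋃ w ∈ F, w) := by
      rw [Set.disjoint_left]
      intro x hx hx'
      simp only [Set.mem_iUnion] at hx'
      obtain ⟨O', hO', hx'⟩ := hx'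
      have hne : O ≠ O' := by
        rintro rfl
        exact hO hO'
      exact Set.disjoint_left.1 (hd O (Finset.mem_insert_self _ _) O'
        (Finset.mem_insert_of_mem hO') hne) hx hx'
    have hFi : ∀ O' ∈ F, Invariant (⊤ : Subgroup G) O' := fun O' hO' =>
      (hF O' (Finset.mem_insert_of_mem hO')).2.1
    have h1 : A ∩ f ⁻¹' (⋃ w ∈ insert O F, w) =
        (A ∩ f ⁻¹' O) ∪ (A ∩ f ⁻¹' (⋃ w ∈ F, w)) := by
      rw [hU, Set.preimage_union, Set.inter_union_distrib_left]
    have hl := locallyClosed_of_openIn hopen hΦ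
    rw [h1]
    refine (h.excision ⊤ closed_top (A ∩ f ⁻¹' O) (A ∩ f ⁻¹' (⋃ w ∈ F, w))
      (invariant_preimage hA hf' hva.1)
      (invariant_preimage hA hf' (invariant_biUnion F hFi))
      (locallyClosed_preimage hA' hf hvl)
      (locallyClosed_preimage hA' hf (locallyClosed_of_openIn ih1 hΦ))
      (by rw [← h1]; exact locallyClosed_preimage hA' hf hl)
      (by
        rw [Set.disjoint_left]
        rintro x ⟨-, hx⟩ ⟨-, hx'⟩
        exact Set.disjoint_left.1 hdis hx hx')
      (by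
        rw [← h1]
        refine openIn_preimage hf ?_
        obtain ⟨O₁, hO₁, e⟩ := hvo
        refine ⟨O₁, hO₁, ?_⟩
        ext x
        constructor
        · intro hx
          refine ⟨by rw [hU]; exact Or.inl hx, ?_⟩
          rw [e] at hx
          exact hx.2
        · rintro ⟨hx, hx'⟩
          rw [e]
          refine ⟨?_, hx'⟩
          obtain ⟨O', -, e'⟩ := hopen
          rw [e'] at hx
          exact hx.1)
      ih2).1 (almost_orbit_case h hA hA' hf hf' hvl hva hBC)

/-- The local-global principle over a Zariski closed subset. -/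
theorem closed_case (h : IsAssembly V BC) {Z : Set (Set V)} (hZ : IsStratified G Z) {A : Set X}
    (hA : Invariant (⊤ : Subgroup G) A) (hA' : IsLocallyClosed A) {f : X → V}
    (hf : ContinuousOn f A) (hf' : EquivariantOn G f A)
    (hBC : ∀ v, BC (stabilizer G v) (A ∩ f ⁻¹' {v})) :
    ∀ W ∈ Z, Invariant (⊤ : Subgroup G) W → BC ⊤ (A ∩ f ⁻¹' W) := by
  by_contra hcon
  push Not at hcon
  have hwf : WellFounded fun W W' : {W : Set V // W ∈ Z} => (W : Set V) ⊂ W' := by
    rw [wellFounded_iff_isEmpty_descending_chain]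
    refine ⟨fun c => hZ.noetherian ⟨fun n => c.1 n, fun n => (c.1 n).2, c.2⟩⟩
  obtain ⟨W₀, hW₀, hi₀, hn₀⟩ := hcon
  obtain ⟨⟨W, hW⟩, ⟨hi, hn⟩, hmin⟩ := hwf.has_min
    {W | Invariant (⊤ : Subgroup G) (W : Set V) ∧ ¬ BC ⊤ (A ∩ f ⁻¹' (W : Set V))}
    ⟨⟨W₀, hW₀⟩, hi₀, hn₀⟩
  rcases W.eq_empty_or_nonempty with rfl | hne
  · refine hn ?_
    rw [Set.preimage_empty, Set.inter_empty]
    exact h.empty _
  obtain ⟨W', hW', hi', hss, N, q, hq, hq', hfib⟩ := hZ.quotient W hW hi hne
  have hB : BC ⊤ (A ∩ f ⁻¹' W') := by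
    by_contra hB
    exact hmin ⟨W', hW'⟩ ⟨hi', hB⟩ hss
  have hd : Invariant (⊤ : Subgroup G) (W \ W') := by
    rintro g - x ⟨hx, hx'⟩
    exact ⟨hi g trivial x hx, fun h1 => hx' ((invariant_iff hi' g x).1 h1)⟩
  have hcl := hZ.closed W hW
  have hcl' := hZ.closed W' hW'
  have hl : IsLocallyClosed (W \ W') := by
    rw [Set.sdiff_eq]
    exact hcl.isLocallyClosed.inter hcl'.isOpen_compl.isLocallyClosed
  have hAd : BC ⊤ (A ∩ f ⁻¹' (W \ W')) := by
    refine h.fibres ⊤ closed_top _ (invariant_preimage hA hf' hd)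
      (locallyClosed_preimage hA' hf hl) N (fun x => q (f x)) ?_ ?_ fun y => ?_
    · exact hq.comp (hf.mono Set.inter_subset_left) fun x hx => hx.2
    · rintro g - x ⟨hx, hx'⟩
      change q (f (g • x)) = q (f x)
      rw [hf' g x hx]
      exact hq' g _ hx'
    · obtain ⟨F, hF, hF', hFd⟩ := hfib y
      have h1 := (almost_orbits_case h hA hA' hf hf' hBC (locallyClosed_fibre hl hq y) F hF' hFd).2
      rw [← hF] at h1
      have h2 : A ∩ f ⁻¹' (W \ W') ∩ (fun x => q (f x)) ⁻¹' {y} =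
          A ∩ f ⁻¹' ((W \ W') ∩ q ⁻¹' {y}) := by
        rw [Set.preimage_inter, Set.inter_assoc]
        rfl
      rw [h2]
      exact h1
  have hun : A ∩ f ⁻¹' W = (A ∩ f ⁻¹' (W \ W')) ∪ (A ∩ f ⁻¹' W') := by
    rw [← Set.inter_union_distrib_left, ← Set.preimage_union, Set.sdiff_union_of_subset hss.1]
  refine hn ?_
  change BC ⊤ (A ∩ f ⁻¹' W)
  rw [hun]
  refine (h.excision ⊤ closed_top _ _ (invariant_preimage hA hf' hd) (invariant_preimage hA hf' hi')
    (locallyClosed_preimage hA' hf hl) (locallyClosed_preimage hA' hf hcl'.isLocallyClosed) ?_ ?_ ?_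
    hB).1 hAd
  · rw [← hun]
    exact locallyClosed_preimage hA' hf hcl.isLocallyClosed
  · rw [Set.disjoint_left]
    rintro x ⟨-, hx⟩ ⟨-, hx'⟩
    exact hx.2 hx'
  · rw [← hun]
    exact openIn_preimage hf ⟨W'ᶜ, hcl'.isOpen_compl, Set.sdiff_eq _ _⟩

/-- The local-global principle. -/
theorem main (h : IsAssembly V BC) {Z : Set (Set V)} (hZ : IsStratified G Z) {A : Set X}
    (hA : Invariant (⊤ : Subgroup G) A) (hA' : IsLocallyClosed A) {f : X → V}
    (hf : ContinuousOn f A) (hf' : EquivariantOn G f A)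
    (hBC : ∀ v, BC (stabilizer G v) (A ∩ f ⁻¹' {v})) : BC ⊤ A := by
  have h1 := closed_case h hZ hA hA' hf hf' hBC Set.univ hZ.univ fun g _ x _ => trivial
  rwa [Set.preimage_univ, Set.inter_univ] at h1

end

section

variable {G : Type} [Group G] [TopologicalSpace G] [IsTopologicalGroup G] {L : Type}
  [NormedAddCommGroup L] [NormedSpace ℝ L] [FiniteDimensional ℝ L] {ex : L → G}
  {ad : G →* (L ≃ₗ[ℝ] L)} {X : Type} [TopologicalSpace X] [T2Space X] [MulAction G X]
  [ContinuousSMul G X] {BC : Subgroup G → Set X → Prop}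

/-- the points with Lie algebra of dimension `d` -/
theorem stratum_case (hL : IsLieGroup ex ad) {d : ℕ} (h : IsAssembly (Gr ad d) BC)
    {Z : Set (Set (Gr ad d))} (hZ : IsStratified G Z) {A : Set X}
    (hA : Invariant (⊤ : Subgroup G) A) (hA' : IsLocallyClosed A)
    (hd : ∀ x ∈ A, Module.finrank ℝ (lie hL x) = d)
    (hBC : ∀ W : Submodule ℝ L, Module.finrank ℝ W = d →
      BC (normalizerOf ad (W : Set L)) {x | x ∈ A ∧ lieOf ex (stabilizer G x) = W}) : BC ⊤ A := by
  classical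
  rcases A.eq_empty_or_nonempty with rfl | ⟨x₀, hx₀⟩
  · exact h.empty _
  let v₀ : Gr ad d := ⟨lie hL x₀, hd x₀ hx₀⟩
  let f : X → Gr ad d := fun x =>
    if hx : Module.finrank ℝ (lie hL x) = d then ⟨lie hL x, hx⟩ else v₀
  have hf : ∀ x ∈ A, (f x).1 = lie hL x := by
    intro x hx
    have h1 : f x = ⟨lie hL x, hd x hx⟩ := dif_pos (hd x hx)
    rw [h1]
  have hfc : ContinuousOn f A := by
    rw [continuousOn_iff_continuous_domRestrict]
    refine continuous_generateFrom_iff.2 ?_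
    rintro _ ⟨K, hK, rfl⟩
    have h1 : A.domRestrict f ⁻¹' {W : Gr ad d | Disjoint (W.1 : Set L) K} =
        (Subtype.val : A → X) ⁻¹' {x : X | Disjoint (lieOf ex (stabilizer G x)) K} := by
      ext ⟨x, hx⟩
      change Disjoint ((f x).1 : Set L) K ↔ Disjoint (lieOf ex (stabilizer G x)) K
      rw [hf x hx]
      rfl
    rw [h1]
    exact (isOpen_disjoint hL hK).preimage continuous_subtype_val
  have hfe : EquivariantOn G f A := by
    intro g x hx
    refine Subtype.ext ?_
    rw [hf _ (hA g trivial x hx), smulGr, hf x hx, map_lie]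
  refine main h hZ hA hA' hfc hfe fun v => ?_
  rw [stab_eq]
  have h1 : A ∩ f ⁻¹' {v} = {x | x ∈ A ∧ lieOf ex (stabilizer G x) = (v.1 : Set L)} := by
    ext x
    constructor
    · rintro ⟨hx, hx'⟩
      have h2 : f x = v := hx'
      refine ⟨hx, ?_⟩
      rw [← h2, hf x hx]
      rfl
    · rintro ⟨hx, hx'⟩
      refine ⟨hx, Subtype.ext ?_⟩
      rw [hf x hx]
      exact SetLike.coe_injective hx'
  rw [h1]
  exact hBC v.1 v.2

/-- **The local-global principle for the Lie algebras of the stabilizers.** -/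
theorem local_global (hL : IsLieGroup ex ad) (h : ∀ d, IsAssembly (Gr ad d) BC)
    (hZ : ∀ d, ∃ Z : Set (Set (Gr ad d)), IsStratified G Z) {A : Set X}
    (hA : Invariant (⊤ : Subgroup G) A) (hA' : IsLocallyClosed A) (d₀ : ℕ)
    (h₀ : BC ⊤ {x | x ∈ A ∧ Module.finrank ℝ (lie hL x) < d₀})
    (hBC : ∀ W : Submodule ℝ L, d₀ ≤ Module.finrank ℝ W →
      BC (normalizerOf ad (W : Set L)) {x | x ∈ A ∧ lieOf ex (stabilizer G x) = W}) : BC ⊤ A := by
  have hinv : ∀ d, Invariant (⊤ : Subgroup G) {x | x ∈ A ∧ Module.finrank ℝ (lie hL x) < d} := by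
    rintro d g - x ⟨hx, hx'⟩
    exact ⟨hA g trivial x hx, by rw [finrank_lie_smul]; exact hx'⟩
  have hlc : ∀ d, IsLocallyClosed {x | x ∈ A ∧ Module.finrank ℝ (lie hL x) < d} := fun d =>
    hA'.inter (isOpen_finrank_lt hL d).isLocallyClosed
  have key : ∀ k, BC ⊤ {x | x ∈ A ∧ Module.finrank ℝ (lie hL x) < d₀ + k} := by
    intro k
    induction k with
    | zero => exact h₀
    | succ k ih =>
      have e1 : {x | x ∈ A ∧ Module.finrank ℝ (lie hL x) < d₀ + (k + 1)} =
          {x | x ∈ A ∧ Module.finrank ℝ (lie hL x) < d₀ + k} ∪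
            {x | x ∈ A ∧ Module.finrank ℝ (lie hL x) = d₀ + k} := by
        ext x
        constructor
        · rintro ⟨h1, h2⟩
          rcases Nat.lt_succ_iff_lt_or_eq.1 h2 with h3 | h3
          · exact Or.inl ⟨h1, h3⟩
          · exact Or.inr ⟨h1, h3⟩
        · rintro (⟨h1, h2⟩ | ⟨h1, h2⟩)
          · exact ⟨h1, by omega⟩
          · exact ⟨h1, by omega⟩
      have hi2 : Invariant (⊤ : Subgroup G)
          {x | x ∈ A ∧ Module.finrank ℝ (lie hL x) = d₀ + k} := by
        rintro g - x ⟨hx, hx'⟩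
        exact ⟨hA g trivial x hx, by rw [finrank_lie_smul]; exact hx'⟩
      have hl2 : IsLocallyClosed {x | x ∈ A ∧ Module.finrank ℝ (lie hL x) = d₀ + k} := by
        have e2 : {x | x ∈ A ∧ Module.finrank ℝ (lie hL x) = d₀ + k} =
            {x | x ∈ A ∧ Module.finrank ℝ (lie hL x) < d₀ + (k + 1)} ∩
              {x | Module.finrank ℝ (lie hL x) < d₀ + k}ᶜ := by
          ext x
          constructor
          · rintro ⟨h1, h2⟩
            refine ⟨⟨h1, by omega⟩, ?_⟩
            intro h3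
            have h4 : Module.finrank ℝ (lie hL x) < d₀ + k := h3
            omega
          · rintro ⟨⟨h1, h2⟩, h3⟩
            have h4 : ¬ Module.finrank ℝ (lie hL x) < d₀ + k := h3
            exact ⟨h1, by omega⟩
        rw [e2]
        exact (hlc _).inter (isOpen_finrank_lt hL _).isClosed_compl.isLocallyClosed
      rw [e1]
      refine ((h 0).excision ⊤ closed_top _ _ (hinv _) hi2 (hlc _) hl2
        (by rw [← e1]; exact hlc _) ?_ ?_ ?_).1 ih
      · rw [Set.disjoint_left]
        rintro x ⟨-, h1⟩ ⟨-, h2⟩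
        omega
      · rw [← e1]
        refine ⟨_, isOpen_finrank_lt hL (d₀ + k), ?_⟩
        ext x
        constructor
        · rintro ⟨h1, h2⟩
          exact ⟨⟨h1, by omega⟩, h2⟩
        · rintro ⟨⟨h1, -⟩, h2⟩
          exact ⟨h1, h2⟩
      · obtain ⟨Z, hZ'⟩ := hZ (d₀ + k)
        refine stratum_case hL (h _) hZ' hi2 hl2 (fun x hx => hx.2) fun W hW => ?_
        have e3 : {x | x ∈ {x | x ∈ A ∧ Module.finrank ℝ (lie hL x) = d₀ + k} ∧
            lieOf ex (stabilizer G x) = (W : Set L)} =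
            {x | x ∈ A ∧ lieOf ex (stabilizer G x) = (W : Set L)} := by
          ext x
          constructor
          · rintro ⟨⟨h1, -⟩, h2⟩
            exact ⟨h1, h2⟩
          · rintro ⟨h1, h2⟩
            have h3 : lie hL x = W := SetLike.coe_injective h2
            exact ⟨⟨h1, by rw [h3, hW]⟩, h2⟩
        rw [e3]
        exact hBC W (by omega)
  have h1 := key (Module.finrank ℝ L + 1)
  have e4 : {x | x ∈ A ∧ Module.finrank ℝ (lie hL x) < d₀ + (Module.finrank ℝ L + 1)} = A := by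
    ext x
    constructor
    · exact fun h2 => h2.1
    · intro h2
      have h3 := (lie hL x).finrank_le
      exact ⟨h2, by omega⟩
  rwa [e4] at h1

theorem large_case (hL : IsLieGroup ex ad) (h : IsAssembly (Gr ad 0) BC) {A : Set X}
    (hA : Invariant (⊤ : Subgroup G) A) (hA' : IsLocallyClosed A) {W : Submodule ℝ L}
    {x₀ : X} (hx : lieOf ex (stabilizer G x₀) = W) (hW : IsLarge ex ad (W : Set L)) :
    BC (normalizerOf ad (W : Set L)) {x | x ∈ A ∧ lieOf ex (stabilizer G x) = W} := by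
  obtain ⟨N, hN, hN', hT⟩ := hW
  have hle : expGroup ex (W : Set L) ≤ normalizerOf ad (W : Set L) := by
    rw [← hx]
    exact (expGroup_le_stab x₀).trans (stab_le_normalizerOf hL x₀)
  have hcl : IsClosed (expGroup ex (W : Set L) : Set G) := Subgroup.isClosed_topologicalClosure _
  refine h.extension _ (expGroup ex (W : Set L)) (isClosed_normalizerOf hL W) hcl hle N hN hN' hT _
    (invariant_lie_eq hL hA _) (isLocallyClosed_lie_eq hL hA' W) fun M hM hMN hC => ?_
  refine h.compact M (expGroup ex (W : Set L)) hM hcl hC ?_ ?_ _ ?_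
    (isLocallyClosed_lie_eq hL hA' W) ?_
  · rw [← hx]
    exact connected_expGroup hL x₀
  · intro m hm l hl
    exact conj_expGroup hL (hMN hm) l hl
  · intro m hm x hx
    exact invariant_lie_eq hL hA _ m (hMN hm) x hx
  · rintro l hl x ⟨-, hx'⟩
    rw [← hx'] at hl
    exact expGroup_le_stab x hl

end

end Pool.Agent.V7H36.NG
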