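import Mathlib
import Pool.Agent.V7H36.NG.Main

/-!
# Orbits of small dimension
-/

set_option autoImplicit false

open Topology Filter MulAction
open scoped Manifold

namespace Pool.Agent.V7H36.NG

open Pool.Agent.V7H36.BC (Invariant IsOpenIn)

section

variable {G : Type} [Group G] [TopologicalSpace G] [IsTopologicalGroup G] {L : Type}
  [NormedAddCommGroup L] [NormedSpace ℝ L] [FiniteDimensional ℝ L] {ex : L → G}
  {ad : G →* (L ≃ₗ[ℝ] L)} {X : Type} [TopologicalSpace X] [T2Space X] [MulAction G X]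
  [ContinuousSMul G X] {BC : Subgroup G → Set X → Prop}

/-- The local-global principle, for the points with large stabilizers. -/
theorem large_points (hL : IsLieGroup ex ad) (h : ∀ d, IsAssembly (Gr ad d) BC)
    (hZ : ∀ d, ∃ Z : Set (Set (Gr ad d)), IsStratified G Z) {A : Set X}
    (hA : Invariant (⊤ : Subgroup G) A) (hA' : IsLocallyClosed A) (d₀ : ℕ)
    (h₀ : BC ⊤ {x | x ∈ A ∧ Module.finrank ℝ (lie hL x) < d₀})
    (hg : ∀ x ∈ A, d₀ ≤ Module.finrank ℝ (lie hL x) →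
      IsLarge ex ad (lieOf ex (stabilizer G x))) : BC ⊤ A := by
  refine local_global hL h hZ hA hA' d₀ h₀ fun W hW => ?_
  rcases Set.eq_empty_or_nonempty {x | x ∈ A ∧ lieOf ex (stabilizer G x) = (W : Set L)} with
    he | ⟨x, hx, hx'⟩
  · rw [he]
    exact (h 0).empty _
  have hxW : lie hL x = W := SetLike.coe_injective hx'
  have h1 := hg x hx (by rw [hxW]; exact hW)
  rw [hx'] at h1
  exact large_case hL (h 0) hA hA' hx' h1

/-- Orbits of small dimension. -/
theorem small_orbits (hL : IsLieGroup ex ad) (h : ∀ d, IsAssembly (Gr ad d) BC)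
    (hZ : ∀ d, ∃ Z : Set (Set (Gr ad d)), IsStratified G Z) (hK : SmallQuotients ex ad) {A : Set X}
    (hA : Invariant (⊤ : Subgroup G) A) (hA' : IsLocallyClosed A)
    (hg : ∀ x ∈ A, dimOf ex (normalizerOf ad (lieOf ex (stabilizer G x))) ≤
      dimOf ex (stabilizer G x) + 7) : BC ⊤ A := by
  refine large_points hL h hZ hA hA' 0 ?_ fun x hx _ => hK _ (isClosed_stab x) (hg x hx)
  have e : {x | x ∈ A ∧ Module.finrank ℝ (lie hL x) < 0} = ∅ := by
    ext x
    constructor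
    · rintro ⟨-, h1⟩
      omega
    · intro h1
      exact absurd h1 (Set.notMem_empty x)
  rw [e]
  exact (h 0).empty _

/-- The orbits of dimension at most seven do not matter. -/
theorem orbit_iff (hL : IsLieGroup ex ad) (h : ∀ d, IsAssembly (Gr ad d) BC)
    (hZ : ∀ d, ∃ Z : Set (Set (Gr ad d)), IsStratified G Z) (hK : SmallQuotients ex ad) {A : Set X}
    (hA : Invariant (⊤ : Subgroup G) A) (hA' : IsLocallyClosed A) :
    BC ⊤ A ↔ BC ⊤ {x | x ∈ A ∧ dimOf ex (stabilizer G x) + 8 ≤ Module.finrank ℝ L} := by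
  set n := Module.finrank ℝ L with hn
  have e0 : {x | x ∈ A ∧ dimOf ex (stabilizer G x) + 8 ≤ n} =
      {x | x ∈ A ∧ Module.finrank ℝ (lie hL x) < n - 7} := by
    ext x
    constructor
    · rintro ⟨h1, h2⟩
      rw [dim_stab hL] at h2
      exact ⟨h1, by omega⟩
    · rintro ⟨h1, h2⟩
      refine ⟨h1, ?_⟩
      rw [dim_stab hL]
      omega
  rw [e0]
  have ho : IsOpen {x : X | Module.finrank ℝ (lie hL x) < n - 7} := isOpen_finrank_lt hL _
  have hnorm : ∀ x : X, ¬ Module.finrank ℝ (lie hL x) < n - 7 →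
      dimOf ex (normalizerOf ad (lieOf ex (stabilizer G x))) ≤ dimOf ex (stabilizer G x) + 7 := by
    intro x hx
    have h1 : dimOf ex (normalizerOf ad (lieOf ex (stabilizer G x))) ≤ n := dimOf_le _
    rw [dim_stab hL]
    omega
  have hi0 : Invariant (⊤ : Subgroup G) {x | x ∈ A ∧ Module.finrank ℝ (lie hL x) < n - 7} := by
    rintro g - x ⟨hx, hx'⟩
    exact ⟨hA g trivial x hx, by rw [finrank_lie_smul]; exact hx'⟩
  have hi1 : Invariant (⊤ : Subgroup G)
      {x | x ∈ A ∧ ¬ Module.finrank ℝ (lie hL x) < n - 7} := by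
    rintro g - x ⟨hx, hx'⟩
    exact ⟨hA g trivial x hx, by rw [finrank_lie_smul]; exact hx'⟩
  have hl0 : IsLocallyClosed {x | x ∈ A ∧ Module.finrank ℝ (lie hL x) < n - 7} :=
    hA'.inter ho.isLocallyClosed
  have hl1 : IsLocallyClosed {x | x ∈ A ∧ ¬ Module.finrank ℝ (lie hL x) < n - 7} :=
    hA'.inter ho.isClosed_compl.isLocallyClosed
  have e1 : {x | x ∈ A ∧ Module.finrank ℝ (lie hL x) < n - 7} ∪
      {x | x ∈ A ∧ ¬ Module.finrank ℝ (lie hL x) < n - 7} = A := by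
    ext x
    constructor
    · rintro (⟨h1, -⟩ | ⟨h1, -⟩)
      · exact h1
      · exact h1
    · intro h1
      by_cases h2 : Module.finrank ℝ (lie hL x) < n - 7
      · exact Or.inl ⟨h1, h2⟩
      · exact Or.inr ⟨h1, h2⟩
  have hB : BC ⊤ {x | x ∈ A ∧ ¬ Module.finrank ℝ (lie hL x) < n - 7} :=
    small_orbits hL h hZ hK hi1 hl1 fun x hx => hnorm x hx.2
  have key := (h 0).excision ⊤ closed_top _ _ hi0 hi1 hl0 hl1 (by rw [e1]; exact hA')
    (by
      rw [Set.disjoint_left]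
      rintro x ⟨-, h2⟩ ⟨-, h3⟩
      exact h3 h2)
    (by
      rw [e1]
      exact ⟨_, ho, rfl⟩) hB
  rw [e1] at key
  exact key.symm

/-- Simple groups. -/
theorem simple_case (hL : IsLieGroup ex ad) (h : ∀ d, IsAssembly (Gr ad d) BC)
    (hZ : ∀ d, ∃ Z : Set (Set (Gr ad d)), IsStratified G Z) (hK : SmallQuotients ex ad) {A : Set X}
    (hA : Invariant (⊤ : Subgroup G) A) (hA' : IsLocallyClosed A) {c : ℕ}
    (hs : IsSimpleOfCodim ex ad c)
    (hg : ∀ x ∈ A, Module.finrank ℝ L ≤ dimOf ex (stabilizer G x) + (c + 7)) : BC ⊤ A := by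
  refine small_orbits hL h hZ hK hA hA' fun x hx => ?_
  have hx1 := hg x hx
  have hcl : IsClosed (normalizerOf ad (lieOf ex (stabilizer G x)) : Set G) :=
    isClosed_normalizerOf hL (lie hL x)
  by_cases hN : normalizerOf ad (lieOf ex (stabilizer G x)) = ⊤
  · have hl := hs.large
    rcases hs.simple _ (isClosed_stab x) hN with h1 | h1
    · omega
    · have h2 := dimOf_le (ex := ex) (normalizerOf ad (lieOf ex (stabilizer G x)))
      omega
  · have h1 := hs.codim _ hcl hN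
    omega

/-! ### Differentiable actions -/

theorem lie_of_zero {F : Type} [NormedAddCommGroup F] [NormedSpace ℝ F] [FiniteDimensional ℝ F]
    [ChartedSpace F X] [IsManifold 𝓘(ℝ, F) 1 X] (hL : IsLieGroup ex ad)
    (hd : IsDifferentiableAction ex F X) (x : X) :
    ∃ D : L →ₗ[ℝ] F, ∀ ξ : L, D ξ = 0 → ξ ∈ lieOf ex (stabilizer G x) := by
  have hcomp : CompleteSpace F := FiniteDimensional.complete ℝ F
  obtain ⟨D, hD⟩ := hd.curves x
  refine ⟨D, fun ξ h0 => ?_⟩
  have hc0 : ex ((0 : ℝ) • ξ) = 1 := by rw [zero_smul, ex_zero hL]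
  have hder : HasMFDerivAt 𝓘(ℝ, ℝ) 𝓘(ℝ, F) (fun t : ℝ => ex (t • ξ) • x) 0
      (0 : ℝ →L[ℝ] F) := by
    have h1 := hD ξ
    rw [h0] at h1
    refine h1.congr_mfderiv ?_
    ext
    exact smul_zero (A := F) (1 : ℝ)
  -- the curve is an integral curve of the zero vector field
  have hint : IsMIntegralCurve (I := 𝓘(ℝ, F)) (fun t : ℝ => ex (t • ξ) • x)
      (fun y : X => (0 : TangentSpace 𝓘(ℝ, F) y)) := by
    intro t₀
    have e1 : (fun t : ℝ => ex (t • ξ) • x) = (fun y : X => ex (t₀ • ξ) • y) ∘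
        (fun t : ℝ => ex (t • ξ) • x) ∘ (fun t : ℝ => t - t₀) := by
      ext t
      simp only [Function.comp_apply]
      rw [← mul_smul, ← hL.one_parameter]
      congr 3
      ring
    have h3 : HasMFDerivAt 𝓘(ℝ, ℝ) 𝓘(ℝ, ℝ) (fun t : ℝ => t - t₀) t₀
        (ContinuousLinearMap.id ℝ ℝ) :=
      ((hasFDerivAt_id t₀).sub_const t₀).hasMFDerivAt
    have h4 : HasMFDerivAt 𝓘(ℝ, ℝ) 𝓘(ℝ, F) (fun t : ℝ => ex (t • ξ) • x) (t₀ - t₀)
        (0 : ℝ →L[ℝ] F) := by
      have h5 : t₀ - t₀ = 0 := sub_self t₀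
      rw [h5]
      exact hder
    have h5 := HasMFDerivAt.comp (f := fun t : ℝ => t - t₀) t₀ h4 h3
    have h6 : MDifferentiableAt 𝓘(ℝ, F) 𝓘(ℝ, F) (fun y : X => ex (t₀ • ξ) • y)
        (ex ((t₀ - t₀) • ξ) • x) := hd.maps (ex (t₀ • ξ)) _
    have h7 := h6.hasMFDerivAt.comp t₀ h5
    have h9 : HasMFDerivAt 𝓘(ℝ, ℝ) 𝓘(ℝ, F) (fun t : ℝ => ex (t • ξ) • x) t₀
        (0 : ℝ →L[ℝ] F) := by
      rw [e1]
      convert h7 using 1
      ext
      exact (map_zero (mfderiv 𝓘(ℝ, F) 𝓘(ℝ, F) (fun y : X => ex (t₀ • ξ) • y)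
        (ex ((t₀ - t₀) • ξ) • x))).symm
    refine h9.congr_mfderiv ?_
    ext
    exact (smul_zero (A := F) (1 : ℝ)).symm
  have hconst : IsMIntegralCurve (I := 𝓘(ℝ, F)) (fun _ : ℝ => x)
      (fun y : X => (0 : TangentSpace 𝓘(ℝ, F) y)) := isMIntegralCurve_const rfl
  have hv : ContMDiff 𝓘(ℝ, F) (𝓘(ℝ, F).prod 𝓘(ℝ, F)) 1
      (fun y : X => (⟨y, (0 : TangentSpace 𝓘(ℝ, F) y)⟩ : TangentBundle 𝓘(ℝ, F) X)) :=
    Bundle.contMDiff_zeroSection ℝ (TangentSpace 𝓘(ℝ, F) : X → Type _)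
  have key := isMIntegralCurve_Ioo_eq_of_contMDiff_boundaryless (t₀ := 0) hv hint hconst
    (by simp [ex_zero hL])
  intro t
  exact congrFun key t

theorem codim_le {F : Type} [NormedAddCommGroup F] [NormedSpace ℝ F] [FiniteDimensional ℝ F]
    [ChartedSpace F X] [IsManifold 𝓘(ℝ, F) 1 X] (hL : IsLieGroup ex ad)
    (hd : IsDifferentiableAction ex F X) (x : X) :
    Module.finrank ℝ L ≤ dimOf ex (stabilizer G x) + Module.finrank ℝ F := by
  obtain ⟨D, hD⟩ := lie_of_zero hL hd x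
  rw [dimOf_eq hL _ (isClosed_stab x)]
  have h1 := LinearMap.finrank_range_add_finrank_ker D
  have h2 : Module.finrank ℝ (LinearMap.range D) ≤ Module.finrank ℝ F :=
    Submodule.finrank_le _
  have h3 : Module.finrank ℝ (LinearMap.ker D) ≤
      Module.finrank ℝ (lieH hL (stabilizer G x) (isClosed_stab x)) :=
    Submodule.finrank_mono fun ξ hξ => hD ξ (LinearMap.mem_ker.1 hξ)
  omega

end

end Pool.Agent.V7H36.NG
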