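import Mathlib
import Pool.Agent.V7H36.NG.Orbits

/-!
# Reduction to small stabilizers, discrete stabilizers
-/

set_option autoImplicit false

open Topology Filter MulAction

namespace Pool.Agent.V7H36.NG

open Pool.Agent.V7H36.BC (Invariant IsOpenIn)

section

variable {G : Type} [Group G] [TopologicalSpace G] [IsTopologicalGroup G] {L : Type}
  [NormedAddCommGroup L] [NormedSpace ℝ L] [FiniteDimensional ℝ L] {ex : L → G}
  {ad : G →* (L ≃ₗ[ℝ] L)} {X : Type} [TopologicalSpace X] [T2Space X] [MulAction G X]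
  [ContinuousSMul G X] {BC : Subgroup G → Set X → Prop}

/-- The points with large stabilizers do not matter. -/
theorem threshold (hL : IsLieGroup ex ad) (h : ∀ d, IsAssembly (Gr ad d) BC)
    (hZ : ∀ d, ∃ Z : Set (Set (Gr ad d)), IsStratified G Z) {A : Set X}
    (hA : Invariant (⊤ : Subgroup G) A) (hA' : IsLocallyClosed A) (m : ℕ)
    (hg : ∀ x ∈ A, m ≤ dimOf ex (stabilizer G x) → IsLarge ex ad (lieOf ex (stabilizer G x))) :
    BC ⊤ A ↔ BC ⊤ {x | x ∈ A ∧ dimOf ex (stabilizer G x) < m} := by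
  have e0 : {x | x ∈ A ∧ dimOf ex (stabilizer G x) < m} =
      {x | x ∈ A ∧ Module.finrank ℝ (lie hL x) < m} := by
    ext x
    constructor
    · rintro ⟨h1, h2⟩
      rw [dim_stab hL] at h2
      exact ⟨h1, h2⟩
    · rintro ⟨h1, h2⟩
      refine ⟨h1, ?_⟩
      rw [dim_stab hL]
      exact h2
  rw [e0]
  have ho : IsOpen {x : X | Module.finrank ℝ (lie hL x) < m} := isOpen_finrank_lt hL _
  have hi0 : Invariant (⊤ : Subgroup G) {x | x ∈ A ∧ Module.finrank ℝ (lie hL x) < m} := by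
    rintro g - x ⟨hx, hx'⟩
    exact ⟨hA g trivial x hx, by rw [finrank_lie_smul]; exact hx'⟩
  have hi1 : Invariant (⊤ : Subgroup G) {x | x ∈ A ∧ ¬ Module.finrank ℝ (lie hL x) < m} := by
    rintro g - x ⟨hx, hx'⟩
    exact ⟨hA g trivial x hx, by rw [finrank_lie_smul]; exact hx'⟩
  have hl0 : IsLocallyClosed {x | x ∈ A ∧ Module.finrank ℝ (lie hL x) < m} :=
    hA'.inter ho.isLocallyClosed
  have hl1 : IsLocallyClosed {x | x ∈ A ∧ ¬ Module.finrank ℝ (lie hL x) < m} :=
    hA'.inter ho.isClosed_compl.isLocallyClosed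
  have e1 : {x | x ∈ A ∧ Module.finrank ℝ (lie hL x) < m} ∪
      {x | x ∈ A ∧ ¬ Module.finrank ℝ (lie hL x) < m} = A := by
    ext x
    constructor
    · rintro (⟨h1, -⟩ | ⟨h1, -⟩)
      · exact h1
      · exact h1
    · intro h1
      by_cases h2 : Module.finrank ℝ (lie hL x) < m
      · exact Or.inl ⟨h1, h2⟩
      · exact Or.inr ⟨h1, h2⟩
  have hB : BC ⊤ {x | x ∈ A ∧ ¬ Module.finrank ℝ (lie hL x) < m} := by
    refine large_points hL h hZ hi1 hl1 m ?_ fun x hx _ => ?_
    · have e2 : {x | x ∈ {x | x ∈ A ∧ ¬ Module.finrank ℝ (lie hL x) < m} ∧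
          Module.finrank ℝ (lie hL x) < m} = ∅ := by
        ext x
        constructor
        · rintro ⟨⟨-, h1⟩, h2⟩
          exact h1 h2
        · intro h1
          exact absurd h1 (Set.notMem_empty x)
      rw [e2]
      exact (h 0).empty _
    · refine hg x hx.1 ?_
      rw [dim_stab hL]
      exact not_lt.1 hx.2
  have key := (h 0).excision ⊤ closed_top _ _ hi0 hi1 hl0 hl1 (by rw [e1]; exact hA')
    (by
      rw [Set.disjoint_left]
      rintro x ⟨-, h2⟩ ⟨-, h3⟩
      exact h3 h2)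
    (by
      rw [e1]
      exact ⟨_, ho, rfl⟩) hB
  rw [e1] at key
  exact key.symm

/-! ### Discrete stabilizers -/

omit [FiniteDimensional ℝ L] in
theorem ex_nat (hL : IsLieGroup ex ad) (k : ℕ) (ξ : L) : ex ((k : ℝ) • ξ) = ex ξ ^ k := by
  induction k with
  | zero => rw [Nat.cast_zero, zero_smul, ex_zero hL, pow_zero]
  | succ k ih => rw [Nat.cast_succ, hL.one_parameter, ih, one_smul, pow_succ]

omit [FiniteDimensional ℝ L] in
theorem ex_neg (hL : IsLieGroup ex ad) (ξ : L) : ex (-ξ) = (ex ξ)⁻¹ := by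
  have h := hL.one_parameter ξ (-1) 1
  rw [neg_add_cancel, zero_smul, ex_zero hL, neg_smul, one_smul] at h
  exact eq_inv_of_mul_eq_one_left h.symm

omit [FiniteDimensional ℝ L] in
theorem ex_int (hL : IsLieGroup ex ad) (k : ℤ) (ξ : L) : ex ((k : ℝ) • ξ) = ex ξ ^ k := by
  obtain ⟨m, rfl | rfl⟩ := k.eq_nat_or_neg
  · rw [zpow_natCast]
    exact_mod_cast ex_nat hL m ξ
  · rw [zpow_neg, zpow_natCast, ← ex_nat hL, ← ex_neg hL]
    congr 1
    push_cast
    rw [neg_smul]

/-- A closed subgroup is discrete if and only if its Lie algebra is zero. -/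
theorem discrete_iff (hL : IsLieGroup ex ad) (H : Subgroup G) (hH : IsClosed (H : Set G)) :
    DiscreteTopology H ↔ dimOf ex H < 1 := by
  obtain ⟨e, h0, he⟩ := hL.chart
  rw [dimOf_eq hL H hH, Nat.lt_one_iff, Submodule.finrank_eq_zero]
  have he0 : e 0 = 1 := by rw [he 0 h0, ex_zero hL]
  constructor
  · intro hd
    rw [Submodule.eq_bot_iff]
    intro ξ hξ
    have hξ' : ∀ t : ℝ, ex (t • ξ) ∈ H := hξ
    have hcont : Continuous fun t : ℝ => (⟨ex (t • ξ), hξ' t⟩ : H) :=
      (hL.continuous.comp (continuous_id.smul continuous_const)).subtype_mk _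
    have h1 : ∀ᶠ t : ℝ in 𝓝 0, (⟨ex (t • ξ), hξ' t⟩ : H) ∈
        ({⟨ex ((0 : ℝ) • ξ), hξ' 0⟩} : Set H) :=
      (hcont.tendsto 0).eventually ((isOpen_discrete _).mem_nhds rfl)
    have h2 : ∀ᶠ t : ℝ in 𝓝 0, t • ξ ∈ e.source := by
      have h3 : Tendsto (fun t : ℝ => t • ξ) (𝓝 0) (𝓝 ((0 : ℝ) • ξ)) :=
        (continuous_id.smul continuous_const).tendsto 0
      rw [zero_smul] at h3
      exact h3.eventually (e.open_source.mem_nhds h0)
    have h3 : ∀ᶠ t : ℝ in 𝓝 0, t • ξ = 0 := by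
      filter_upwards [h1, h2] with t ht1 ht2
      have h4 : ex (t • ξ) = ex ((0 : ℝ) • ξ) := congrArg Subtype.val ht1
      rw [zero_smul] at h4
      refine e.injOn ht2 h0 ?_
      rw [he _ ht2, he _ h0, h4]
    obtain ⟨t, ht, ht'⟩ : ∃ t : ℝ, t • ξ = 0 ∧ t ≠ 0 :=
      ((h3.filter_mono nhdsWithin_le_nhds).and (self_mem_nhdsWithin (s := {0}ᶜ) (a := (0 : ℝ)))).exists
    exact (smul_eq_zero.1 ht).resolve_left ht'
  · intro hbot
    rw [discreteTopology_iff_isOpen_singleton_one]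
    by_contra hno
    have hprop : ProperSpace L := FiniteDimensional.proper ℝ L
    -- the logarithms of the elements of `H` accumulate at zero
    have hne : (𝓝[{ξ : L | ex ξ ∈ H} \ {0}] (0 : L)).NeBot := by
      by_contra hb
      rw [not_neBot, ← empty_mem_iff_bot, mem_nhdsWithin] at hb
      obtain ⟨u, hu, h1u, hu'⟩ := hb
      apply hno
      have hopen : IsOpen (e '' (e.source ∩ u)) := e.isOpen_image_source_inter hu
      have h1 : ({1} : Set H) = (Subtype.val : H → G) ⁻¹' (e '' (e.source ∩ u)) := by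
        ext g
        constructor
        · intro h2
          have h3 : g = 1 := h2
          rw [h3]
          exact ⟨0, ⟨h0, h1u⟩, he0⟩
        · rintro ⟨ξ, ⟨h2, h3⟩, h4⟩
          by_contra h5
          refine hu' ⟨h3, ?_, ?_⟩
          · change ex ξ ∈ H
            rw [← he ξ h2, h4]
            exact g.2
          · intro h6
            have h7 : ξ = 0 := h6
            rw [h7, he0] at h4
            exact h5 (Subtype.ext h4.symm)
      rw [h1]
      exact hopen.preimage continuous_subtype_val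
    obtain ⟨u, hu⟩ := exists_seq_tendsto (𝓝[{ξ : L | ex ξ ∈ H} \ {0}] (0 : L))
    have hu1 : Tendsto u atTop (𝓝 0) := hu.mono_right nhdsWithin_le_nhds
    have huP : ∀ᶠ k in atTop, u k ∈ {ξ : L | ex ξ ∈ H} \ {0} := hu.eventually self_mem_nhdsWithin
    have hs : ∀ᶠ k in atTop, ‖u k‖⁻¹ • u k ∈ Metric.sphere (0 : L) 1 := by
      filter_upwards [huP] with k hk
      have h2 : u k ≠ 0 := hk.2
      rw [mem_sphere_zero_iff_norm, norm_smul, norm_inv, norm_norm]
      exact inv_mul_cancel₀ (norm_ne_zero_iff.2 h2)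
    obtain ⟨ξ, hξ, φ, hφ, hlim⟩ := (isCompact_sphere (0 : L) 1).tendsto_subseq' hs.frequently
    have hξH : ξ ∈ lieH hL H hH := by
      intro t
      have hζ : Tendsto (fun k => u (φ k)) atTop (𝓝 0) := hu1.comp hφ.tendsto_atTop
      have hlim' : Tendsto (fun k => ((⌊t * ‖u (φ k)‖⁻¹⌋ : ℤ) : ℝ) • u (φ k)) atTop
          (𝓝 (t • ξ)) := by
        have h2 : Tendsto (fun k => t • (‖u (φ k)‖⁻¹ • u (φ k))) atTop (𝓝 (t • ξ)) :=
          hlim.const_smul t
        have h3 : Tendsto (fun k => Int.fract (t * ‖u (φ k)‖⁻¹) • u (φ k)) atTop (𝓝 0) := by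
          refine squeeze_zero_norm (a := fun k => ‖u (φ k)‖) (fun k => ?_) (by simpa using hζ.norm)
          rw [norm_smul, Real.norm_eq_abs, abs_of_nonneg (Int.fract_nonneg _)]
          exact mul_le_of_le_one_left (norm_nonneg _) (Int.fract_lt_one _).le
        have h4 := h2.sub h3
        rw [sub_zero] at h4
        refine h4.congr fun k => ?_
        rw [smul_smul, ← sub_smul, Int.self_sub_fract]
      have h5 : Tendsto (fun k => ex (((⌊t * ‖u (φ k)‖⁻¹⌋ : ℤ) : ℝ) • u (φ k))) atTop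
          (𝓝 (ex (t • ξ))) := (hL.continuous.tendsto _).comp hlim'
      refine hH.mem_of_tendsto h5 ?_
      filter_upwards [hφ.tendsto_atTop.eventually huP] with k hk
      rw [ex_int hL]
      exact zpow_mem hk.1 _
    rw [hbot] at hξH
    have h6 : ξ = 0 := hξH
    rw [h6] at hξ
    simp at hξ

theorem discrete_set (hL : IsLieGroup ex ad) (A : Set X) :
    {x | x ∈ A ∧ DiscreteTopology (stabilizer G x)} =
      {x | x ∈ A ∧ dimOf ex (stabilizer G x) < 1} := by
  ext x
  constructor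
  · rintro ⟨h2, h3⟩
    exact ⟨h2, (discrete_iff hL _ (isClosed_stab x)).1 h3⟩
  · rintro ⟨h2, h3⟩
    exact ⟨h2, (discrete_iff hL _ (isClosed_stab x)).2 h3⟩

end

end Pool.Agent.V7H36.NG
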